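import Pool.Agent.Helper97.LPP.Defs

/-! LPP-4: real analysis of the function `h` (MP_6c0a5d_pr). Written by helper36. -/

open MeasureTheory ProbabilityTheory Filter Topology
open scoped ENNReal

namespace Helper97.LPP

theorem h36_basic {a b l : ℝ} (ha : 0 < a) (hb : 0 < b) (hl : shp a b < l) :
    0 < disc a b l ∧ 0 < √(disc a b l) ∧ √(disc a b l) ^ 2 = disc a b l ∧ a + b < l ∧
      √(disc a b l) < l - a - b ∧ √(disc a b l) < l + a - b ∧ √(disc a b l) < l - a + b := by
  have hx : 0 < √a := Real.sqrt_pos.2 ha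
  have hy : 0 < √b := Real.sqrt_pos.2 hb
  have hxa : √a ^ 2 = a := Real.sq_sqrt ha.le
  have hyb : √b ^ 2 = b := Real.sq_sqrt hb.le
  have hxy : 0 < √a * √b := mul_pos hx hy
  have hl' : a + b + 2 * (√a * √b) < l := by
    have : shp a b = a + b + 2 * (√a * √b) := by
      unfold shp; rw [add_sq, hxa, hyb]; ring
    linarith
  have hsum : a + b < l := by linarith
  have habs : (√a * √b) ^ 2 = a * b := by rw [mul_pow, hxa, hyb]
  have hD : 0 < disc a b l := by
    have h1 : disc a b l = (l - a - b - 2 * (√a * √b)) * (l - a - b + 2 * (√a * √b)) := by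
      unfold disc
      linear_combination 4 * habs
    rw [h1]
    exact mul_pos (by linarith) (by linarith)
  have hab : 0 < a * b := mul_pos ha hb
  have hal : 0 < a * l := mul_pos ha (by linarith)
  have hbl : 0 < b * l := mul_pos hb (by linarith)
  refine ⟨hD, Real.sqrt_pos.2 hD, Real.sq_sqrt hD.le, hsum, ?_, ?_, ?_⟩
  · rw [Real.sqrt_lt' (by linarith)]; unfold disc; nlinarith
  · rw [Real.sqrt_lt' (by linarith)]; unfold disc; nlinarith
  · rw [Real.sqrt_lt' (by linarith)]; unfold disc; nlinarith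

/-- explicit values of `a/z, b/(1-z), a/w, b/(1-w)` -/
theorem h36_values {a b l : ℝ} (ha : 0 < a) (hb : 0 < b) (hl : shp a b < l) :
    0 < zl a b l ∧ zl a b l < wl a b l ∧ wl a b l < 1 ∧
      a / zl a b l = (l + a - b + √(disc a b l)) / 2 ∧
      b / (1 - zl a b l) = (l - a + b - √(disc a b l)) / 2 ∧
      a / wl a b l = (l + a - b - √(disc a b l)) / 2 ∧
      b / (1 - wl a b l) = (l - a + b + √(disc a b l)) / 2 := by
  obtain ⟨hD, hR, hR2, hs, h1, h2, h3⟩ := h36_basic ha hb hl
  set R := √(disc a b l) with hRdef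
  have hl0 : 0 < l := by linarith
  unfold disc at hR2
  have hz : 0 < zl a b l := by
    unfold zl; rw [← hRdef]; exact div_pos (by linarith) (by linarith)
  have hw : wl a b l < 1 := by
    unfold wl; rw [← hRdef, div_lt_one (by linarith)]; linarith
  have hzw : zl a b l < wl a b l := by
    unfold zl wl; rw [← hRdef]; exact div_lt_div_of_pos_right (by linarith) (by linarith)
  refine ⟨hz, hzw, hw, ?_, ?_, ?_, ?_⟩
  · rw [div_eq_iff hz.ne']
    unfold zl; rw [← hRdef]; field_simp; linear_combination hR2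
  · rw [div_eq_iff (by linarith)]
    unfold zl; rw [← hRdef]; field_simp; linear_combination hR2
  · rw [div_eq_iff (by linarith)]
    unfold wl; rw [← hRdef]; field_simp; linear_combination hR2
  · rw [div_eq_iff (by linarith)]
    unfold wl; rw [← hRdef]; field_simp; linear_combination hR2

theorem params {a b l : ℝ} (ha : 0 < a) (hb : 0 < b) (hl : shp a b < l) :
    0 < zl a b l ∧ zl a b l < wl a b l ∧ wl a b l < 1 ∧
      a / zl a b l + b / (1 - zl a b l) = l ∧ a / wl a b l + b / (1 - wl a b l) = l := by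
  obtain ⟨h1, h2, h3, h4, h5, h6, h7⟩ := h36_values ha hb hl
  refine ⟨h1, h2, h3, ?_, ?_⟩
  · rw [h4, h5]; ring
  · rw [h6, h7]; ring

theorem params_cont {a b l : ℝ} (ha : 0 < a) (hb : 0 < b) (hl : shp a b < l) :
    ContinuousAt (fun l => zl a b l) l ∧ ContinuousAt (fun l => wl a b l) l ∧
      ContinuousAt (fun l => rate a b l) l := by
  obtain ⟨h1, h2, h3, -⟩ := h36_values ha hb hl
  obtain ⟨-, -, -, hs, -⟩ := h36_basic ha hb hl
  have hl0 : (2 : ℝ) * l ≠ 0 := by
    have : 0 < l := by linarith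
    positivity
  have hsq : Continuous fun l => √(disc a b l) := by
    unfold disc; fun_prop
  have hz : ContinuousAt (fun l => zl a b l) l := by
    unfold zl
    exact ContinuousAt.div (by fun_prop) (by fun_prop) hl0
  have hw : ContinuousAt (fun l => wl a b l) l := by
    unfold wl
    exact ContinuousAt.div (by fun_prop) (by fun_prop) hl0
  refine ⟨hz, hw, ?_⟩
  unfold rate hC hR
  have hz0 : zl a b l ≠ 0 := h1.ne'
  have hw0 : (1 : ℝ) - wl a b l ≠ 0 := by linarith
  have e1 : ContinuousAt (fun l => Real.log (wl a b l / zl a b l)) l :=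
    (hw.div hz hz0).log (div_pos (by linarith) h1).ne'
  have e2 : ContinuousAt (fun l => Real.log ((1 - zl a b l) / (1 - wl a b l))) l :=
    ((continuousAt_const.sub hz).div (continuousAt_const.sub hw) hw0).log
      (div_pos (show 0 < 1 - zl a b l by linarith) (show 0 < 1 - wl a b l by linarith)).ne'
  exact (((hw.sub hz).mul continuousAt_id).sub (continuousAt_const.mul e1)).sub
    (continuousAt_const.mul e2)

/-- the optimal `y` in the variational formula for `shp` -/
theorem h36_opt {A B : ℝ} (hA : 0 < A) (hB : 0 < B) :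
    0 < √A / (√A + √B) ∧ √A / (√A + √B) < 1 ∧
      A / (√A / (√A + √B)) = A + √A * √B ∧ B / (1 - √A / (√A + √B)) = B + √A * √B := by
  have hx : 0 < √A := Real.sqrt_pos.2 hA
  have hy : 0 < √B := Real.sqrt_pos.2 hB
  have hxa : √A ^ 2 = A := Real.sq_sqrt hA.le
  have hyb : √B ^ 2 = B := Real.sq_sqrt hB.le
  refine ⟨by positivity, ?_, ?_, ?_⟩
  · rw [div_lt_one (by positivity)]; linarith
  · rw [div_div_eq_mul_div, div_eq_iff hx.ne']
    linear_combination (-√B) * hxa
  · have h1 : 1 - √A / (√A + √B) = √B / (√A + √B) := by field_simp; ring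
    rw [h1, div_div_eq_mul_div, div_eq_iff hy.ne']
    linear_combination (-√A) * hyb

theorem h36_shp (A B : ℝ) (hA : 0 ≤ A) (hB : 0 ≤ B) : shp A B = A + B + 2 * (√A * √B) := by
  unfold shp
  rw [add_sq, Real.sq_sqrt hA, Real.sq_sqrt hB]; ring

/-- facts about `m` -/
theorem h36_mm {a b l : ℝ} (ha : 0 < a) (hb : 0 < b) (hl : shp a b < l) :
    1 < mm a b l ∧ mm a b l * (l - a - b - √(disc a b l)) = l - a - b + √(disc a b l) ∧
      4 * (a * b) * mm a b l = (l - a - b + √(disc a b l)) ^ 2 ∧
      4 * (a * b) * (mm a b l)⁻¹ = (l - a - b - √(disc a b l)) ^ 2 := by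
  obtain ⟨hD, hR, hR2, hs, h1, h2, h3⟩ := h36_basic ha hb hl
  set R := √(disc a b l) with hRdef
  unfold disc at hR2
  have hpos : 0 < l - a - b - R := by linarith
  have hpos' : 0 < l - a - b + R := by linarith
  have e0 : mm a b l = (l - a - b + R) / (l - a - b - R) := by unfold mm; rw [← hRdef]
  refine ⟨?_, ?_, ?_, ?_⟩
  · rw [e0, one_lt_div hpos]; linarith
  · rw [e0, div_mul_cancel₀ _ hpos.ne']
  · rw [e0, mul_div_assoc', div_eq_iff hpos.ne']
    linear_combination (l - a - b + R) * hR2
  · rw [e0, inv_div, mul_div_assoc', div_eq_iff hpos'.ne']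
    linear_combination (l - a - b - R) * hR2

/-- sign of `a/y + b/(1-y) - l` at the optimal `y` of `(a p, b q)`. -/
theorem h36_sign {a b l p q : ℝ} (ha : 0 < a) (hb : 0 < b) (hl : shp a b < l) (hp : 0 < p)
    (hq : 0 < q) :
    ((mm a b l)⁻¹ < q / p ∧ q / p < mm a b l →
      a / (√(a * p) / (√(a * p) + √(b * q))) + b / (1 - √(a * p) / (√(a * p) + √(b * q))) ≤ l) ∧
    (¬ ((mm a b l)⁻¹ < q / p ∧ q / p < mm a b l) →
      l ≤ a / (√(a * p) / (√(a * p) + √(b * q))) +
        b / (1 - √(a * p) / (√(a * p) + √(b * q)))) := by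
  obtain ⟨hD, hR, hR2, hs, h1, h2, h3⟩ := h36_basic ha hb hl
  obtain ⟨hm1, hm2, hm3, hm4⟩ := h36_mm ha hb hl
  set R := √(disc a b l) with hRdef
  unfold disc at hR2
  have hpos : 0 < l - a - b - R := by linarith
  have hpos' : 0 < l - a - b + R := by linarith
  have hAp : 0 < a * p := mul_pos ha hp
  have hBq : 0 < b * q := mul_pos hb hq
  obtain ⟨o1, o2, o3, o4⟩ := h36_opt hAp hBq
  set y := √(a * p) / (√(a * p) + √(b * q)) with hy
  set g := √(a * p) * √(b * q) with hg
  have hg2 : g ^ 2 = a * p * (b * q) := by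
    rw [hg, mul_pow, Real.sq_sqrt hAp.le, Real.sq_sqrt hBq.le]
  have hg0 : 0 < g := mul_pos (Real.sqrt_pos.2 hAp) (Real.sqrt_pos.2 hBq)
  -- a / y = a + g / p, b / (1 - y) = b + g / q
  have e1 : a / y = a + g / p := by
    have : a / y = (a * p / y) / p := by field_simp
    rw [this, o3]; field_simp
  have e2 : b / (1 - y) = b + g / q := by
    have : b / (1 - y) = (b * q / (1 - y)) / q := by field_simp
    rw [this, o4]; field_simp
  rw [e1, e2]
  -- t := g / p satisfies t * (g / q) = a b and t ^ 2 = a b (q / p)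
  set t := g / p with ht
  set t' := g / q with ht'
  have ht0 : 0 < t := by positivity
  have ht'0 : 0 < t' := by positivity
  have htt : t * t' = a * b := by
    rw [ht, ht', div_mul_div_comm, div_eq_iff (by positivity)]
    linear_combination hg2
  have ht2 : t ^ 2 = a * b * (q / p) := by
    rw [ht, div_pow, div_eq_iff (by positivity)]
    rw [hg2]; field_simp
  have hab : 0 < a * b := mul_pos ha hb
  -- (2 t - (s + R)) (2 t - (s - R)) = 4 t (t + t' - s)
  have key : (2 * t - (l - a - b + R)) * (2 * t - (l - a - b - R)) =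
      4 * t * (t + t' - (l - a - b)) := by
    linear_combination (-1) * hR2 - 4 * htt
  constructor
  · rintro ⟨i1, i2⟩
    have j1 : (2 * t) ^ 2 < (l - a - b + R) ^ 2 := by
      rw [← hm3, mul_pow, ht2]; nlinarith
    have j2 : (l - a - b - R) ^ 2 < (2 * t) ^ 2 := by
      rw [← hm4, mul_pow, ht2]; nlinarith
    have k1 : 2 * t < l - a - b + R := lt_of_pow_lt_pow_left₀ 2 hpos'.le j1
    have k2 : l - a - b - R < 2 * t := lt_of_pow_lt_pow_left₀ 2 (by positivity) j2
    by_contra hcon
    push Not at hcon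
    have : 0 < 4 * t * (t + t' - (l - a - b)) := by
      apply mul_pos (by positivity); linarith
    rw [← key] at this
    nlinarith
  · intro hni
    by_contra hcon
    push Not at hcon
    apply hni
    have hneg : 4 * t * (t + t' - (l - a - b)) < 0 := by
      apply mul_neg_of_pos_of_neg (by positivity); linarith
    rw [← key] at hneg
    have k1 : 2 * t < l - a - b + R := by
      by_contra h
      push Not at h
      nlinarith
    have k2 : l - a - b - R < 2 * t := by
      by_contra h
      push Not at h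
      nlinarith
    have j1 : (2 * t) ^ 2 < (l - a - b + R) ^ 2 := pow_lt_pow_left₀ k1 (by positivity) (by norm_num)
    have j2 : (l - a - b - R) ^ 2 < (2 * t) ^ 2 := pow_lt_pow_left₀ k2 hpos.le (by norm_num)
    rw [← hm3, mul_pow, ht2] at j1
    rw [← hm4, mul_pow, ht2] at j2
    constructor
    · have : a * b * (mm a b l)⁻¹ < a * b * (q / p) := by linarith
      exact lt_of_mul_lt_mul_left this hab.le
    · have : a * b * (q / p) < a * b * mm a b l := by linarith
      exact lt_of_mul_lt_mul_left this hab.le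

theorem hh_upper {a b l u v : ℝ} (ha : 0 < a) (hb : 0 < b) (hl : shp a b < l) (hu : 0 < u)
    (hv : 0 < v) {ε : ℝ} (hε : 0 < ε) :
    ∃ y, 0 < y ∧ y < 1 ∧ ∀ r ∈ Set.Icc (0 : ℝ) 1,
      r * l + (u - r) * (a / y) + (v - r) * (b / (1 - y)) ≤ hh a b l u v + ε := by
  obtain ⟨hz, hzw, hw, v1, v2, v3, v4⟩ := h36_values ha hb hl
  by_cases h1 : (u, v) ∈ Om1 a b l
  · have hval : hh a b l u v = l + shp (a * u - a) (b * v - b) := by
      unfold hh; rw [if_pos h1]
    obtain ⟨hu1, hv1, i1, i2⟩ := h1
    simp only at hu1 hv1 i1 i2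
    have hp : 0 < u - 1 := by linarith
    have hq : 0 < v - 1 := by linarith
    have hA : 0 < a * (u - 1) := mul_pos ha hp
    have hB : 0 < b * (v - 1) := mul_pos hb hq
    obtain ⟨o1, o2, o3, o4⟩ := h36_opt hA hB
    have hs := (h36_sign ha hb hl hp hq).1 ⟨i1, i2⟩
    refine ⟨_, o1, o2, fun r hr => ?_⟩
    set y := √(a * (u - 1)) / (√(a * (u - 1)) + √(b * (v - 1))) with hy
    have e1 : (u - 1) * (a / y) = a * (u - 1) / y := by ring
    have e2 : (v - 1) * (b / (1 - y)) = b * (v - 1) / (1 - y) := by ring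
    have e3 : shp (a * u - a) (b * v - b) = (u - 1) * (a / y) + (v - 1) * (b / (1 - y)) := by
      rw [e1, e2, o3, o4]
      have : a * u - a = a * (u - 1) := by ring
      rw [this]
      have : b * v - b = b * (v - 1) := by ring
      rw [this, h36_shp _ _ hA.le hB.le]
      ring
    rw [hval, e3]
    have hr1 : 0 ≤ 1 - r := by linarith [hr.2]
    have := mul_nonneg hr1 (sub_nonneg.2 hs)
    nlinarith
  · by_cases h2 : (u, v) ∈ Om2 a b l
    · have hval : hh a b l u v = (1 / 2) * (u * (l + a - b) + v * (l - a + b) -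
          √(disc a b l) * |u - v|) := by
        unfold hh; rw [if_neg h1, if_pos h2]
      rcases le_total u v with huv | huv
      · refine ⟨zl a b l, hz, by linarith, fun r hr => ?_⟩
        rw [hval, v1, v2, abs_of_nonpos (by linarith)]
        have : r * l + (u - r) * ((l + a - b + √(disc a b l)) / 2) +
            (v - r) * ((l - a + b - √(disc a b l)) / 2) =
            1 / 2 * (u * (l + a - b) + v * (l - a + b) - √(disc a b l) * -(u - v)) := by ring
        linarith
      · refine ⟨wl a b l, by linarith, hw, fun r hr => ?_⟩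
        rw [hval, v3, v4, abs_of_nonneg (by linarith)]
        have : r * l + (u - r) * ((l + a - b - √(disc a b l)) / 2) +
            (v - r) * ((l - a + b + √(disc a b l)) / 2) =
            1 / 2 * (u * (l + a - b) + v * (l - a + b) - √(disc a b l) * (u - v)) := by ring
        linarith
    · have hval : hh a b l u v = shp (a * u) (b * v) := by
        unfold hh; rw [if_neg h1, if_neg h2]
      have hA : 0 < a * u := mul_pos ha hu
      have hB : 0 < b * v := mul_pos hb hv
      obtain ⟨o1, o2, o3, o4⟩ := h36_opt hA hB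
      have hs := (h36_sign ha hb hl hu hv).2 (fun h => h2 ⟨hu, hv, h.1, h.2⟩)
      refine ⟨_, o1, o2, fun r hr => ?_⟩
      set y := √(a * u) / (√(a * u) + √(b * v)) with hy
      have e1 : u * (a / y) = a * u / y := by ring
      have e2 : v * (b / (1 - y)) = b * v / (1 - y) := by ring
      have e3 : shp (a * u) (b * v) = u * (a / y) + v * (b / (1 - y)) := by
        rw [e1, e2, o3, o4, h36_shp _ _ hA.le hB.le]
        ring
      rw [hval, e3]
      have := mul_nonneg hr.1 (sub_nonneg.2 hs)
      nlinarith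

/-- core of `hh_lower_mid` for `u ≤ v` -/
theorem h36_lower_core {a b l u v : ℝ} (ha : 0 < a) (hb : 0 < b) (hl : shp a b < l) (hu : 0 < u)
    (huv : u ≤ v) (hm : v / u < mm a b l) (h1 : u ≤ 1 ∨ mm a b l * (u - 1) ≤ v - 1) {ε : ℝ}
    (hε : 0 < ε) :
    ∃ r, 0 < r ∧ r < 1 ∧ r < u ∧ r < v ∧
      (1 / 2) * (u * (l + a - b) + v * (l - a + b) - √(disc a b l) * (v - u)) ≤
        r * l + shp (a * (u - r)) (b * (v - r)) + ε := by
  obtain ⟨hD, hR, hR2, hs, g1, g2, g3⟩ := h36_basic ha hb hl
  obtain ⟨hm1, hm2, hm3, hm4⟩ := h36_mm ha hb hl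
  set R := √(disc a b l) with hRdef
  set M := mm a b l with hM
  have hM1 : 0 < M - 1 := by linarith
  have hvM : v < M * u := by rwa [div_lt_iff₀ hu] at hm
  obtain ⟨r₀, hr₀⟩ : ∃ r₀, r₀ = (M * u - v) / (M - 1) := ⟨_, rfl⟩
  have hr0 : 0 < r₀ := by rw [hr₀]; exact div_pos (by linarith) hM1
  have hru : r₀ ≤ u := by rw [hr₀, div_le_iff₀ hM1]; nlinarith
  have hr1 : r₀ ≤ 1 := by
    rcases h1 with h | h
    · exact hru.trans h
    · rw [hr₀, div_le_one hM1]; nlinarith
  have hvr : v - r₀ = M * (u - r₀) := by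
    have : r₀ * (M - 1) = M * u - v := by rw [hr₀, div_mul_cancel₀ _ hM1.ne']
    linear_combination this
  -- the value at `r₀`
  have hval : r₀ * l + shp (a * (u - r₀)) (b * (v - r₀)) =
      (1 / 2) * (u * (l + a - b) + v * (l - a + b) - R * (v - u)) := by
    have hk : 0 ≤ u - r₀ := by linarith
    have hA : 0 ≤ a * (u - r₀) := mul_nonneg ha.le hk
    have hB : 0 ≤ b * (v - r₀) := by
      rw [hvr]; exact mul_nonneg hb.le (mul_nonneg (by linarith) hk)
    rw [h36_shp _ _ hA hB]
    have hsq : √(a * (u - r₀)) * √(b * (v - r₀)) = (u - r₀) * ((l - a - b + R) / 2) := by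
      rw [← Real.sqrt_mul hA, Real.sqrt_eq_iff_mul_self_eq (mul_nonneg hA hB)
        (mul_nonneg hk (by linarith))]
      rw [hvr]
      linear_combination ((u - r₀) ^ 2 / 4) * hm3
    rw [hsq]
    have hvr' : v = r₀ + M * (u - r₀) := by linarith
    rw [hvr']
    linear_combination (-(u - r₀) / 2) * hm2
  -- continuity
  have hcont : Continuous fun r : ℝ => r * l + shp (a * (u - r)) (b * (v - r)) := by
    unfold shp; fun_prop
  have hev : ∀ᶠ r in 𝓝 r₀, r₀ * l + shp (a * (u - r₀)) (b * (v - r₀)) - ε <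
      r * l + shp (a * (u - r)) (b * (v - r)) :=
    (hcont.tendsto r₀).eventually (lt_mem_nhds (by simp [hε]))
  have hev2 : ∀ᶠ r in 𝓝[<] r₀, (r₀ * l + shp (a * (u - r₀)) (b * (v - r₀)) - ε <
      r * l + shp (a * (u - r)) (b * (v - r))) ∧ 0 < r ∧ r < r₀ :=
    (hev.filter_mono nhdsWithin_le_nhds).and
      (((lt_mem_nhds hr0).filter_mono nhdsWithin_le_nhds).and self_mem_nhdsWithin)
  obtain ⟨r, k1, k2, k3⟩ := hev2.exists
  refine ⟨r, k2, by linarith, by linarith, by linarith, ?_⟩
  rw [← hval]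
  linarith

theorem hh_lower_mid {a b l u v : ℝ} (ha : 0 < a) (hb : 0 < b) (hl : shp a b < l) (hu : 0 < u)
    (hv : 0 < v) (h1 : (u, v) ∉ Om1 a b l) (h2 : (u, v) ∈ Om2 a b l) {ε : ℝ} (hε : 0 < ε) :
    ∃ r, 0 < r ∧ r < 1 ∧ r < u ∧ r < v ∧
      hh a b l u v ≤ r * l + shp (a * (u - r)) (b * (v - r)) + ε := by
  have hval : hh a b l u v = (1 / 2) * (u * (l + a - b) + v * (l - a + b) -
      √(disc a b l) * |u - v|) := by
    unfold hh; rw [if_neg h1, if_pos h2]
  obtain ⟨hm1, -⟩ := h36_mm ha hb hl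
  have hmpos : 0 < mm a b l := by linarith
  have hinv : (mm a b l)⁻¹ < 1 := inv_lt_one_of_one_lt₀ hm1
  obtain ⟨-, -, i1, i2⟩ := h2
  simp only at i1 i2
  rcases le_total u v with huv | huv
  · obtain ⟨r, r1, r2, r3, r4, r5⟩ := h36_lower_core ha hb hl hu huv i2 (by
      by_contra hcon
      push Not at hcon
      obtain ⟨c1, c2⟩ := hcon
      apply h1
      have hu1 : 0 < u - 1 := by linarith
      refine ⟨c1, by simp only; linarith, ?_, ?_⟩
      · simp only
        refine hinv.trans_le ?_
        rw [one_le_div hu1]; linarith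
      · simp only
        rw [div_lt_iff₀ hu1]; exact c2) hε
    refine ⟨r, r1, r2, r3, r4, ?_⟩
    rw [hval, abs_of_nonpos (by linarith), neg_sub]
    exact r5
  · have hmm : mm b a l = mm a b l := by
      unfold mm disc
      congr 1 <;> ring_nf
    have hdd : disc b a l = disc a b l := by unfold disc; ring
    have hss : ∀ x y, shp x y = shp y x := fun x y => by unfold shp; ring
    have hl' : shp b a < l := by rw [hss]; exact hl
    obtain ⟨r, r1, r2, r3, r4, r5⟩ := h36_lower_core (a := b) (b := a) (u := v) (v := u)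
      hb ha hl' hv huv (by
        rw [hmm, div_lt_iff₀ hv]
        rw [lt_div_iff₀ hu, inv_mul_lt_iff₀ hmpos] at i1
        exact i1) (by
      rw [hmm]
      by_contra hcon
      push Not at hcon
      obtain ⟨c1, c2⟩ := hcon
      apply h1
      have hv1 : 0 < v - 1 := by linarith
      have hu1 : 0 < u - 1 := by linarith
      refine ⟨by simp only; linarith, c1, ?_, ?_⟩
      · simp only
        rw [lt_div_iff₀ hu1, inv_mul_lt_iff₀ hmpos]
        exact c2
      · simp only
        refine lt_of_le_of_lt ?_ hm1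
        rw [div_le_one hu1]; linarith) hε
    refine ⟨r, r1, r2, r4, r3, ?_⟩
    rw [hval, abs_of_nonneg (by linarith), hss]
    rw [hdd] at r5
    linarith

end Helper97.LPP
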